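import Mathlib
import Pool.Agent.V1175.MS.LP

/-!
# `∑ k^s x^k/(k!)^m` is in the Laguerre–Pólya class for suitable `m`
-/

set_option autoImplicit false

namespace Pool.Agent.Results.MP_5e2fde_an.RealExponent

open Polynomial Filter Topology

/-- All complex zeros of `p` are real. -/
def OnlyRealZeros (p : ℝ[X]) : Prop := ∀ z : ℂ, aeval z p = 0 → z.im = 0

/-- The class of Laguerre and Pólya: limits, uniform on compact subsets of `ℂ`, of real
polynomials having only real zeros. -/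
def LaguerrePolya (f : ℂ → ℂ) : Prop :=
  ∃ P : ℕ → ℝ[X], (∀ n, OnlyRealZeros (P n)) ∧
    ∀ K : Set ℂ, IsCompact K → TendstoUniformlyOn (fun n z => aeval z (P n)) f atTop K

/-- Functions of the class of Laguerre and Pólya with nonnegative Taylor coefficients. -/
def LaguerrePolyaPlus (f : ℂ → ℂ) : Prop :=
  LaguerrePolya f ∧
    ∃ c : ℕ → ℝ, (∀ k, 0 ≤ c k) ∧ ∀ z : ℂ, HasSum (fun k => ((c k : ℝ) : ℂ) * z ^ k) (f z)

/-- The function `F_{s,m}(z) = ∑ k^s z^k/(k!)^m` (with `0^s = 0`). -/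
noncomputable def F (s : ℝ) (m : ℕ) (z : ℂ) : ℂ :=
  ∑' k : ℕ, (((k : ℝ) ^ s / (k.factorial : ℝ) ^ m : ℝ) : ℂ) * z ^ k

lemma growth {s : ℝ} (hs : 0 < s) : ∃ B : ℝ, ∀ k : ℕ, (k : ℝ) ^ s ≤ B * Real.exp 1 ^ k := by
  refine ⟨(⌈s⌉₊.factorial : ℝ), fun k => ?_⟩
  cases k with
  | zero => rw [Nat.cast_zero, Real.zero_rpow hs.ne']; positivity
  | succ k =>
    have h1 : (1:ℝ) ≤ ((k + 1 : ℕ) : ℝ) := by
      push_cast; have : (0:ℝ) ≤ k := Nat.cast_nonneg k
      linarith
    have h2 : ((k + 1 : ℕ) : ℝ) ^ s ≤ ((k + 1 : ℕ) : ℝ) ^ (⌈s⌉₊ : ℝ) :=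
      Real.rpow_le_rpow_of_exponent_le h1 (Nat.le_ceil s)
    rw [Real.rpow_natCast] at h2
    have h3 := Real.pow_div_factorial_le_exp ((k + 1 : ℕ) : ℝ) (by linarith) ⌈s⌉₊
    rw [div_le_iff₀ (by positivity)] at h3
    rw [← Real.exp_nat_mul, mul_one, mul_comm]
    linarith

lemma summ {s : ℝ} (hs : 0 < s) {m : ℕ} (hm : 1 ≤ m) (z : ℂ) :
    Summable (fun k : ℕ => (((k : ℝ) ^ s / (k.factorial : ℝ) ^ m : ℝ) : ℂ) * z ^ k) := by
  obtain ⟨B, hB⟩ := growth hs
  have hsum : Summable fun k : ℕ => B * ((Real.exp 1 * ‖z‖) ^ k / (k.factorial : ℝ)) :=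
    (Real.summable_pow_div_factorial (Real.exp 1 * ‖z‖)).mul_left B
  refine Summable.of_norm_bounded hsum fun k => ?_
  have h0 : 0 ≤ (k : ℝ) ^ s / (k.factorial : ℝ) ^ m := by positivity
  rw [norm_mul, norm_pow, Complex.norm_real, Real.norm_of_nonneg h0]
  have h1 : (1:ℝ) ≤ (k.factorial : ℝ) := by
    exact_mod_cast Nat.one_le_iff_ne_zero.mpr (Nat.factorial_ne_zero k)
  have h2 : (k.factorial : ℝ) ≤ (k.factorial : ℝ) ^ m := le_self_pow₀ h1 (by omega)
  have h3 : (k : ℝ) ^ s / (k.factorial : ℝ) ^ m ≤ (k : ℝ) ^ s / (k.factorial : ℝ) :=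
    div_le_div_of_nonneg_left (by positivity) (by positivity) h2
  calc _ ≤ (k : ℝ) ^ s / (k.factorial : ℝ) * ‖z‖ ^ k :=
        mul_le_mul_of_nonneg_right h3 (by positivity)
    _ ≤ (B * Real.exp 1 ^ k) / (k.factorial : ℝ) * ‖z‖ ^ k := by
        apply mul_le_mul_of_nonneg_right _ (by positivity)
        exact div_le_div_of_nonneg_right (hB k) (by positivity)
    _ = _ := by rw [mul_pow]; ring

lemma plus_of {s : ℝ} (hs : 0 < s) {m : ℕ} (hm : 1 ≤ m) (h : LaguerrePolya (F s m)) :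
    LaguerrePolyaPlus (F s m) :=
  ⟨h, fun k => (k : ℝ) ^ s / (k.factorial : ℝ) ^ m, fun k => by positivity,
    fun z => (summ hs hm z).hasSum⟩

open Pool.Agent.V1175.MS in
lemma nonzero_of (γ : ℕ → ℝ) (hγ : Mult γ) (N : ℕ) (hN : 0 < N ∨ 0 < γ 0) (hpos : ∀ k, 0 < γ (k + 1)) :
    OnlyRealZeros (Tn N γ (pN N)) := by
  rcases hγ N (pN N) (RR_pN N) (natDegree_pN N) with h | h
  · exfalso
    have h1 := congrArg (fun q => q.coeff N) h
    simp only [coeff_zero] at h1
    rw [coeff_Tn, if_pos le_rfl, coeff_pN, Nat.choose_self] at h1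
    cases N with
    | zero =>
      rcases hN with h2 | h2
      · omega
      · simp at h1; linarith
    | succ N =>
      have h2 := hpos N
      have h3 : (0:ℝ) < ((N + 1 : ℕ) : ℝ)⁻¹ := by positivity
      have h4 : 0 < γ (N + 1) * (((1 : ℕ) : ℝ) * ((N + 1 : ℕ) : ℝ)⁻¹ ^ (N + 1)) := by positivity
      linarith
  · exact h

open Pool.Agent.V1175.MS in
/-- The case `s ≥ 1/2`. -/
lemma big {s : ℝ} (hs : 1 / 2 ≤ s) : LaguerrePolya (F s (⌈s⌉₊ + 1)) := by
  have hs0 : 0 < s := by linarith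
  set N := ⌈s⌉₊ with hN
  have hN0 : 0 < N := Nat.ceil_pos.mpr hs0
  have hNr : (0:ℝ) < N := by exact_mod_cast hN0
  have h1 : s / N ≤ 1 := by rw [div_le_one hNr]; exact Nat.le_ceil s
  have h2 : 1 / 2 ≤ s / N := by
    rw [le_div_iff₀ hNr]
    have h3 : (N:ℝ) < s + 1 := Nat.ceil_lt_add_one hs0.le
    rcases Nat.lt_or_ge N 2 with h | h
    · have : N = 1 := by omega
      rw [this]; push_cast; linarith
    · have : (2:ℝ) ≤ N := by exact_mod_cast h
      linarith
  set γ : ℕ → ℝ := fun k => (k : ℝ) ^ s / (k.factorial : ℝ) ^ N with hγ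
  have hm : Mult γ := by
    have h3 := (pow_mult' h2 h1).pow N
    refine (congrArg Mult ?_).mp h3
    funext k
    simp only [hγ]
    rw [div_pow, ← Real.rpow_mul_natCast (Nat.cast_nonneg k), div_mul_cancel₀ _ hNr.ne']
  obtain ⟨B, hB⟩ := growth hs0
  have hb : ∀ k, γ k ≤ B * Real.exp 1 ^ k := by
    intro k
    have h1 : (1:ℝ) ≤ (k.factorial : ℝ) ^ N := by
      apply one_le_pow₀
      exact_mod_cast Nat.one_le_iff_ne_zero.mpr (Nat.factorial_ne_zero k)
    refine le_trans ?_ (hB k)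
    exact div_le_self (by positivity) h1
  refine ⟨fun n => Tn (n + 1) γ (pN (n + 1)), ?_, ?_⟩
  · intro n
    exact nonzero_of γ hm (n + 1) (Or.inl (Nat.succ_pos n)) (fun k => by simp only [hγ]; positivity)
  · intro K hK
    have h := LP_of_mult γ (fun k => by simp only [hγ]; positivity) B (Real.exp 1) hb K hK
    have h' : TendstoUniformlyOn (fun n z => aeval z (Tn (n + 1) γ (pN (n + 1))))
        (fun z => ∑' k : ℕ, ((γ k / (k.factorial : ℝ) : ℝ) : ℂ) * z ^ k) atTop K := by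
      rw [Metric.tendstoUniformlyOn_iff] at h ⊢
      intro ε hε
      exact (tendsto_add_atTop_nat 1).eventually (h ε hε)
    refine h'.congr_right ?_
    intro z _
    simp only [F]
    refine tsum_congr fun k => ?_
    simp only [hγ]
    rw [pow_succ, div_div]

open Pool.Agent.V1175.MS in
/-- The case `s < 1/2`. -/
lemma small {s : ℝ} (hs0 : 0 < s) (hs : s < 1 / 2) : LaguerrePolya (F s 3) := by
  set s' := (1 + s) / 2 with hs'
  have h1 := pow_mult (s := s') (by rw [hs']; linarith) (by rw [hs']; linarith)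
  have hs'0 : s' ≠ 0 := by rw [hs']; positivity
  have h2 := (h1.shift (by simp [Real.zero_rpow hs'0]) (fun k => by positivity)).pow 2
  set γ : ℕ → ℝ := fun k => ((k:ℝ) + 1) ^ (s - 3) / (k.factorial : ℝ) ^ 2 with hγ
  have hm : Mult γ := by
    refine (congrArg Mult ?_).mp h2
    funext k
    simp only [hγ]
    have hk : (0:ℝ) < (k:ℝ) + 1 := by positivity
    rw [Nat.factorial_succ]
    push_cast
    rw [div_div, div_pow, ← Real.rpow_mul_natCast hk.le]
    have e1 : s' * ((2:ℕ):ℝ) = (s - 3) + ((4:ℕ):ℝ) := by rw [hs']; push_cast; ring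
    rw [e1, Real.rpow_add_natCast hk.ne']
    have h3 : (0:ℝ) < (k.factorial : ℝ) := by positivity
    field_simp
  have hpos : ∀ k, 0 < γ k := fun k => by simp only [hγ]; positivity
  have hb : ∀ k, γ k ≤ 1 * 1 ^ k := by
    intro k
    rw [one_pow, one_mul]
    simp only [hγ]
    have h4 : (1:ℝ) ≤ (k.factorial : ℝ) ^ 2 := by
      apply one_le_pow₀
      exact_mod_cast Nat.one_le_iff_ne_zero.mpr (Nat.factorial_ne_zero k)
    have h5 : ((k:ℝ) + 1) ^ (s - 3) ≤ 1 := by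
      apply Real.rpow_le_one_of_one_le_of_nonpos
      · have : (0:ℝ) ≤ k := Nat.cast_nonneg k
        linarith
      · linarith
    rw [div_le_one (by positivity)]
    exact h5.trans h4
  refine ⟨fun n => X * Tn n γ (pN n), ?_, ?_⟩
  · intro n z hz
    rw [map_mul, aeval_X] at hz
    rcases mul_eq_zero.mp hz with h | h
    · rw [h]; rfl
    · exact nonzero_of γ hm n (Or.inr (hpos 0)) (fun k => hpos (k + 1)) z h
  · intro K hK
    have h := LP_of_mult γ (fun k => (hpos k).le) 1 1 hb K hK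
    obtain ⟨R, hR⟩ := hK.isBounded.subset_closedBall 0
    have hzR : ∀ z ∈ K, ‖z‖ ≤ max R 0 + 1 := by
      intro z hz
      have := hR hz
      rw [mem_closedBall_zero_iff] at this
      have := le_max_left R 0
      linarith
    set G : ℂ → ℂ := fun z => ∑' k : ℕ, ((γ k / (k.factorial : ℝ) : ℝ) : ℂ) * z ^ k with hG
    have hFG : ∀ z, F s 3 z = z * G z := by
      intro z
      have hsum := summ hs0 (m := 3) (by norm_num) z
      simp only [F]
      rw [hsum.tsum_eq_zero_add]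
      simp only [hG]
      rw [← tsum_mul_left]
      have h0 : (((((0:ℕ):ℝ) ^ s / (Nat.factorial 0 : ℝ) ^ 3 : ℝ)) : ℂ) * z ^ 0 = 0 := by
        rw [Nat.cast_zero, Real.zero_rpow hs0.ne']; simp
      rw [h0, zero_add]
      refine tsum_congr fun k => ?_
      have h6 : ((k + 1 : ℕ) : ℝ) ^ s / ((k + 1).factorial : ℝ) ^ 3 = γ k / (k.factorial : ℝ) := by
        simp only [hγ]
        have hk : (0:ℝ) < (k:ℝ) + 1 := by positivity
        rw [Nat.factorial_succ]
        push_cast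
        have e1 : s = (s - 3) + ((3:ℕ):ℝ) := by push_cast; ring
        have e2 : ((k:ℝ) + 1) ^ s = ((k:ℝ) + 1) ^ (s - 3) * ((k:ℝ) + 1) ^ 3 := by
          conv_lhs => rw [e1]
          rw [Real.rpow_add_natCast hk.ne']
        rw [e2]
        have h3 : (0:ℝ) < (k.factorial : ℝ) := by positivity
        field_simp
      rw [h6, pow_succ]
      ring
    rw [Metric.tendstoUniformlyOn_iff] at h ⊢
    intro ε hε
    set R1 := max R 0 + 1 with hR1
    have hR1pos : 0 < R1 := by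
      have := le_max_right R 0
      linarith
    filter_upwards [h (ε / R1) (by positivity)] with n hn z hz
    have h7 := hn z hz
    rw [hFG, map_mul, aeval_X, dist_eq_norm, ← mul_sub, norm_mul]
    rw [dist_eq_norm] at h7
    calc ‖z‖ * ‖G z - aeval z (Tn n γ (pN n))‖ ≤ R1 * ‖G z - aeval z (Tn n γ (pN n))‖ :=
          mul_le_mul_of_nonneg_right (hzR z hz) (norm_nonneg _)
      _ < R1 * (ε / R1) := mul_lt_mul_of_pos_left h7 hR1pos
      _ = ε := by field_simp

/-- For every real `s > 0` there is an integer `m ≥ 1` such that `F_{s,m}` is in the class of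
Laguerre and Pólya; explicitly, `m = ⌈s⌉ + 1` works if `s ≥ 1/2` and `m = 3` works if
`s < 1/2`. -/
theorem result :
    (∀ s : ℝ, 0 < s → ∃ m : ℕ, 1 ≤ m ∧ LaguerrePolyaPlus (F s m)) ∧
    (∀ s : ℝ, 1 / 2 ≤ s → LaguerrePolyaPlus (F s (⌈s⌉₊ + 1))) ∧
    (∀ s : ℝ, 0 < s → s < 1 / 2 → LaguerrePolyaPlus (F s 3)) := by
  have h1 : ∀ s : ℝ, 1 / 2 ≤ s → LaguerrePolyaPlus (F s (⌈s⌉₊ + 1)) := by
    intro s hs
    exact plus_of (by linarith) (by omega) (big hs)
  have h2 : ∀ s : ℝ, 0 < s → s < 1 / 2 → LaguerrePolyaPlus (F s 3) := by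
    intro s hs0 hs
    exact plus_of hs0 (by omega) (small hs0 hs)
  refine ⟨?_, h1, h2⟩
  intro s hs0
  rcases lt_or_ge s (1 / 2) with h | h
  · exact ⟨3, by omega, h2 s hs0 h⟩
  · exact ⟨⌈s⌉₊ + 1, by omega, h1 s h⟩

end Pool.Agent.Results.MP_5e2fde_an.RealExponent
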